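import Pool.Agent.ASO.Stmts3

/-!
# Squad ASO, row LBS: the total sum in terms of the weighted numbers
-/

open scoped BigOperators

set_option autoImplicit false

noncomputable section

namespace Pool.Agent.PP.SO.H62

open Pool.Agent.Helper51_AWC Pool.Agent.Helper79_WRA Pool.Agent.PP Pool.Agent.PP.KF
open Pool.Agent.PP.K9 Pool.Agent.PP.K9.H97 Pool.Agent.PP.H75 Pool.Agent.PP.T3

attribute [local instance] Ideal.Quotient.field

/-! ### Triples -/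

section triples

variable {G : Type} [Group G]

instance finXX [Finite G] (g h : G) : Finite (XX g h) := by
  unfold XX
  infer_instance

/-- conjugation of the first argument -/
def eqA (g h z : G) : XX g h ≃ XX (z * g * z⁻¹) h where
  toFun w := ⟨(z * w.1.1 * z⁻¹, z * w.1.2.1 * z⁻¹, z * w.1.2.2), by
    have h1 := w.2
    calc z * w.1.1 * z⁻¹ * (z * w.1.2.1 * z⁻¹) * (z * w.1.1 * z⁻¹)⁻¹ * (z * w.1.2.1 * z⁻¹)⁻¹ =
        z * (w.1.1 * w.1.2.1 * w.1.1⁻¹ * w.1.2.1⁻¹) * z⁻¹ := by group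
      _ = z * (g * (w.1.2.2 * h * w.1.2.2⁻¹)) * z⁻¹ := by rw [h1]
      _ = z * g * z⁻¹ * (z * w.1.2.2 * h * (z * w.1.2.2)⁻¹) := by group⟩
  invFun w := ⟨(z⁻¹ * w.1.1 * z, z⁻¹ * w.1.2.1 * z, z⁻¹ * w.1.2.2), by
    have h1 := w.2
    calc z⁻¹ * w.1.1 * z * (z⁻¹ * w.1.2.1 * z) * (z⁻¹ * w.1.1 * z)⁻¹ * (z⁻¹ * w.1.2.1 * z)⁻¹ =
        z⁻¹ * (w.1.1 * w.1.2.1 * w.1.1⁻¹ * w.1.2.1⁻¹) * z := by group
      _ = z⁻¹ * (z * g * z⁻¹ * (w.1.2.2 * h * w.1.2.2⁻¹)) * z := by rw [h1]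
      _ = g * (z⁻¹ * w.1.2.2 * h * (z⁻¹ * w.1.2.2)⁻¹) := by group⟩
  left_inv w := by
    apply Subtype.ext
    apply Prod.ext
    · show z⁻¹ * (z * w.1.1 * z⁻¹) * z = w.1.1
      group
    · apply Prod.ext
      · show z⁻¹ * (z * w.1.2.1 * z⁻¹) * z = w.1.2.1
        group
      · show z⁻¹ * (z * w.1.2.2) = w.1.2.2
        group
  right_inv w := by
    apply Subtype.ext
    apply Prod.ext
    · show z * (z⁻¹ * w.1.1 * z) * z⁻¹ = w.1.1
      group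
    · apply Prod.ext
      · show z * (z⁻¹ * w.1.2.1 * z) * z⁻¹ = w.1.2.1
        group
      · show z * (z⁻¹ * w.1.2.2) = w.1.2.2
        group

/-- conjugation of the second argument -/
def eqB (g h z : G) : XX g h ≃ XX g (z * h * z⁻¹) where
  toFun w := ⟨(w.1.1, w.1.2.1, w.1.2.2 * z⁻¹), by
    have h1 := w.2
    calc w.1.1 * w.1.2.1 * w.1.1⁻¹ * w.1.2.1⁻¹ = g * (w.1.2.2 * h * w.1.2.2⁻¹) := h1
      _ = g * (w.1.2.2 * z⁻¹ * (z * h * z⁻¹) * (w.1.2.2 * z⁻¹)⁻¹) := by group⟩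
  invFun w := ⟨(w.1.1, w.1.2.1, w.1.2.2 * z), by
    have h1 := w.2
    calc w.1.1 * w.1.2.1 * w.1.1⁻¹ * w.1.2.1⁻¹ = g * (w.1.2.2 * (z * h * z⁻¹) * w.1.2.2⁻¹) := h1
      _ = g * (w.1.2.2 * z * h * (w.1.2.2 * z)⁻¹) := by group⟩
  left_inv w := by
    apply Subtype.ext
    apply Prod.ext
    · rfl
    · apply Prod.ext
      · rfl
      · show w.1.2.2 * z⁻¹ * z = w.1.2.2
        group
  right_inv w := by
    apply Subtype.ext
    apply Prod.ext
    · rfl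
    · apply Prod.ext
      · rfl
      · show w.1.2.2 * z * z⁻¹ = w.1.2.2
        group

end triples

/-! ### Conditions -/

section cond

variable {G V₀ : Type} [Group G] [CommGroup V₀] {n : ℕ}

/-- invariance of a condition under the two kinds of conjugation -/
structure Iv (ι : V₀ →* G) (Cd : G → G → G → G → SS n V₀ → Prop) : Prop where
  one : ∀ (z g x y u : G) (σ : SS n V₀), z * ι σ.2.2.1 = ι σ.2.2.1 * z →
    (Cd (z * g * z⁻¹) (z * x * z⁻¹) (z * y * z⁻¹) (z * u) σ ↔ Cd g x y u σ)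
  two : ∀ (z g x y u : G) (σ : SS n V₀), z * ι σ.2.2.2 = ι σ.2.2.2 * z →
    (Cd g x y (u * z⁻¹) σ ↔ Cd g x y u σ)

/-- the number of triples -/
def NN (Cd : G → G → G → G → SS n V₀ → Prop) (g h : G) (L : Set (SS n V₀)) : ℕ :=
  {z : XX g h | ∀ σ ∈ L, Cd g z.1.1 z.1.2.1 z.1.2.2 σ}.ncard

variable {ι : V₀ →* G} {Cd : G → G → G → G → SS n V₀ → Prop}

theorem NN_one (hC : Iv ι Cd) (g h z : G) (L : Set (SS n V₀))
    (hz : ∀ σ ∈ L, z * ι σ.2.2.1 = ι σ.2.2.1 * z) : NN Cd (z * g * z⁻¹) h L = NN Cd g h L := by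
  unfold NN
  have h1 : {w : XX (z * g * z⁻¹) h | ∀ σ ∈ L, Cd (z * g * z⁻¹) w.1.1 w.1.2.1 w.1.2.2 σ} =
      eqA g h z '' {w : XX g h | ∀ σ ∈ L, Cd g w.1.1 w.1.2.1 w.1.2.2 σ} := by
    ext w
    obtain ⟨v, rfl⟩ := (eqA g h z).surjective w
    rw [(eqA g h z).injective.mem_set_image]
    exact forall₂_congr fun σ hσ => hC.one z g v.1.1 v.1.2.1 v.1.2.2 σ (hz σ hσ)
  rw [h1, Set.ncard_image_of_injective _ (eqA g h z).injective]

theorem NN_two (hC : Iv ι Cd) (g h z : G) (L : Set (SS n V₀))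
    (hz : ∀ σ ∈ L, z * ι σ.2.2.2 = ι σ.2.2.2 * z) : NN Cd g (z * h * z⁻¹) L = NN Cd g h L := by
  unfold NN
  have h1 : {w : XX g (z * h * z⁻¹) | ∀ σ ∈ L, Cd g w.1.1 w.1.2.1 w.1.2.2 σ} =
      eqB g h z '' {w : XX g h | ∀ σ ∈ L, Cd g w.1.1 w.1.2.1 w.1.2.2 σ} := by
    ext w
    obtain ⟨v, rfl⟩ := (eqB g h z).surjective w
    rw [(eqB g h z).injective.mem_set_image]
    exact forall₂_congr fun σ hσ => hC.two z g v.1.1 v.1.2.1 v.1.2.2 σ (hz σ hσ)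
  rw [h1, Set.ncard_image_of_injective _ (eqB g h z).injective]

theorem conj_pow' (z a : G) (k : ℕ) : (z * a * z⁻¹) ^ k = z * a ^ k * z⁻¹ := conj_pow

theorem c13_iv (m : ℕ) (ι : V₀ →* G) : Iv ι (fun g x y u (s : SS n V₀) =>
    c13 m ι g x y u s.1 s.2.1 s.2.2.1 s.2.2.2) := by
  refine ⟨fun z g x y u σ hz => ?_, fun z g x y u σ hz => ?_⟩
  · have hz' : ι σ.2.2.1 = z * ι σ.2.2.1 * z⁻¹ := by rw [hz, mul_inv_cancel_right]
    unfold c13
    obtain ⟨p, hp⟩ : ∃ p, p = ι σ.2.2.1 := ⟨_, rfl⟩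
    rw [← hp] at hz hz' ⊢
    have e0 : (z * g * z⁻¹)⁻¹ * (z * x * z⁻¹) = z * (g⁻¹ * x) * z⁻¹ := by group
    rw [e0, conj_pow', conj_pow', conj_pow', conj_pow']
    refine and_congr ?_ (and_congr ?_ ?_)
    · have e1 : p * (z * x * z⁻¹) * p⁻¹ = z * (p * x * p⁻¹) * z⁻¹ := by
        conv_lhs => rw [hz']
        group
      rw [e1]
      constructor
      · intro h
        exact mul_left_cancel (mul_right_cancel h)
      · intro h
        rw [← h]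
    · have e1 : p * (z * y * z⁻¹) * p⁻¹ = z * (p * y * p⁻¹) * z⁻¹ := by
        conv_lhs => rw [hz']
        group
      have e2 : z * ((g⁻¹ * x) ^ m) ^ (σ.2.1 : ℕ) * z⁻¹ * (z * y * z⁻¹) *
          (z * (x ^ m) ^ (σ.1 : ℕ) * z⁻¹) =
          z * (((g⁻¹ * x) ^ m) ^ (σ.2.1 : ℕ) * y * (x ^ m) ^ (σ.1 : ℕ)) * z⁻¹ := by group
      rw [e1, e2]
      constructor
      · intro h
        exact mul_left_cancel (mul_right_cancel h)
      · intro h
        rw [h]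
    · have e1 : p * (z * u) * (ι σ.2.2.2)⁻¹ = z * (p * u * (ι σ.2.2.2)⁻¹) := by
        rw [← mul_assoc, ← hz]
        group
      have e2 : z * ((g⁻¹ * x) ^ m) ^ (σ.2.1 : ℕ) * z⁻¹ * (z * u) =
          z * (((g⁻¹ * x) ^ m) ^ (σ.2.1 : ℕ) * u) := by group
      rw [e1, e2]
      exact mul_right_inj z
  · have hz' : z⁻¹ * (ι σ.2.2.2)⁻¹ = (ι σ.2.2.2)⁻¹ * z⁻¹ := by
      rw [← mul_inv_rev, ← mul_inv_rev, hz]
    unfold c13
    refine and_congr Iff.rfl (and_congr Iff.rfl ?_)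
    have e1 : ι σ.2.2.1 * (u * z⁻¹) * (ι σ.2.2.2)⁻¹ = ι σ.2.2.1 * u * (ι σ.2.2.2)⁻¹ * z⁻¹ := by
      rw [mul_assoc, mul_assoc, hz']
      group
    have e2 : ((g⁻¹ * x) ^ m) ^ (σ.2.1 : ℕ) * (u * z⁻¹) =
        ((g⁻¹ * x) ^ m) ^ (σ.2.1 : ℕ) * u * z⁻¹ := by group
    rw [e1, e2]
    exact mul_left_inj z⁻¹

theorem c12_iv (m : ℕ) (ι : V₀ →* G) : Iv ι (fun _ x y u (s : SS n V₀) =>
    c12 m ι x y u s.1 s.2.1 s.2.2.1 s.2.2.2) := by
  refine ⟨fun z g x y u σ hz => ?_, fun z g x y u σ hz => ?_⟩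
  · have hz' : ι σ.2.2.1 = z * ι σ.2.2.1 * z⁻¹ := by rw [hz, mul_inv_cancel_right]
    show c12 m ι (z * x * z⁻¹) (z * y * z⁻¹) (z * u) σ.1 σ.2.1 σ.2.2.1 σ.2.2.2 ↔
      c12 m ι x y u σ.1 σ.2.1 σ.2.2.1 σ.2.2.2
    unfold c12
    obtain ⟨p, hp⟩ : ∃ p, p = ι σ.2.2.1 := ⟨_, rfl⟩
    rw [← hp] at hz hz' ⊢
    have e0 : kap (z * x * z⁻¹) (z * y * z⁻¹) = z * kap x y * z⁻¹ := by
      unfold kap
      group
    rw [e0, conj_pow', conj_pow', conj_pow', conj_pow']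
    obtain ⟨K, hK⟩ : ∃ K, K = (kap x y ^ m) ^ (σ.2.1 : ℕ) := ⟨_, rfl⟩
    obtain ⟨X, hX⟩ : ∃ X, X = (x ^ m) ^ (σ.1 : ℕ) := ⟨_, rfl⟩
    rw [← hK, ← hX]
    refine and_congr ?_ (and_congr ?_ ?_)
    · have e1 : p * (z * x * z⁻¹) * p⁻¹ = z * (p * x * p⁻¹) * z⁻¹ := by
        conv_lhs => rw [hz']
        group
      have e2 : (z * K * z⁻¹)⁻¹ * (z * x * z⁻¹) * (z * K * z⁻¹) = z * (K⁻¹ * x * K) * z⁻¹ := by group
      rw [e1, e2]
      constructor
      · intro h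
        exact mul_left_cancel (mul_right_cancel h)
      · intro h
        rw [h]
    · have e1 : p * (z * y * z⁻¹) * p⁻¹ = z * (p * y * p⁻¹) * z⁻¹ := by
        conv_lhs => rw [hz']
        group
      have e2 : (z * K * z⁻¹)⁻¹ * (z * y * z⁻¹ * (z * X * z⁻¹)) * (z * K * z⁻¹) =
          z * (K⁻¹ * (y * X) * K) * z⁻¹ := by group
      rw [e1, e2]
      constructor
      · intro h
        exact mul_left_cancel (mul_right_cancel h)
      · intro h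
        rw [h]
    · have e1 : p * (z * u) * (ι σ.2.2.2)⁻¹ = z * (p * u * (ι σ.2.2.2)⁻¹) := by
        rw [← mul_assoc, ← hz]
        group
      rw [e1]
      exact mul_right_inj z
  · have hz' : z⁻¹ * (ι σ.2.2.2)⁻¹ = (ι σ.2.2.2)⁻¹ * z⁻¹ := by
      rw [← mul_inv_rev, ← mul_inv_rev, hz]
    show c12 m ι x y (u * z⁻¹) σ.1 σ.2.1 σ.2.2.1 σ.2.2.2 ↔
      c12 m ι x y u σ.1 σ.2.1 σ.2.2.1 σ.2.2.2
    unfold c12
    refine and_congr Iff.rfl (and_congr Iff.rfl ?_)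
    have e1 : ι σ.2.2.1 * (u * z⁻¹) * (ι σ.2.2.2)⁻¹ = ι σ.2.2.1 * u * (ι σ.2.2.2)⁻¹ * z⁻¹ := by
      rw [mul_assoc, mul_assoc, hz']
      group
    rw [e1]
    exact mul_left_inj z⁻¹

/-! ### Möbius inversion -/

theorem mbi_sum (mbi : MbiStmt) {A : Type} [Finite A] [Fintype (Set A)] (F : Set A → ℚ)
    (τ : Set A) [∀ L : Set A, Decidable (L ⊆ τ)] :
    F τ = ∑ L : Set A, if L ⊆ τ then mob F L else 0 := by
  classical
  rw [← (mbi A F).1 τ, finsum_mem_def, finsum_eq_sum_of_fintype]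
  refine Finset.sum_congr rfl fun L _ => ?_
  rw [Set.indicator_apply]
  by_cases h : L ⊆ τ
  · rw [if_pos h, if_pos (show L ∈ {L : Set A | L ⊆ τ} from h)]
  · rw [if_neg h, if_neg (show L ∉ {L : Set A | L ⊆ τ} from h)]

open Classical in
/-- the sum over the triples -/
theorem sum_types (mbi : MbiStmt) [Finite G] [Finite V₀] [Fintype (Set (SS n V₀))]
    (Cd : G → G → G → G → SS n V₀ → Prop) (P Q : Subgroup V₀) (g h : G)
    (F : Set (SS n V₀) → ℚ) :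
    ∑ᶠ z : XX g h, F {σ | σ.2.2.1 ∈ P ∧ σ.2.2.2 ∈ Q ∧ Cd g z.1.1 z.1.2.1 z.1.2.2 σ} =
      ∑ L : Set (SS n V₀), mob F L *
        (if pL L ≤ P ∧ qL L ≤ Q then (NN Cd g h L : ℚ) else 0) := by
  have := Fintype.ofFinite (XX g h)
  rw [finsum_eq_sum_of_fintype]
  have h1 : ∀ z : XX g h, F {σ | σ.2.2.1 ∈ P ∧ σ.2.2.2 ∈ Q ∧ Cd g z.1.1 z.1.2.1 z.1.2.2 σ} =
      ∑ L : Set (SS n V₀), if pL L ≤ P ∧ qL L ≤ Q then
        (if ∀ σ ∈ L, Cd g z.1.1 z.1.2.1 z.1.2.2 σ then mob F L else 0) else 0 := by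
    intro z
    rw [mbi_sum mbi F]
    refine Finset.sum_congr rfl fun L _ => ?_
    have h2 : L ⊆ {σ | σ.2.2.1 ∈ P ∧ σ.2.2.2 ∈ Q ∧ Cd g z.1.1 z.1.2.1 z.1.2.2 σ} ↔
        (pL L ≤ P ∧ qL L ≤ Q) ∧ ∀ σ ∈ L, Cd g z.1.1 z.1.2.1 z.1.2.2 σ := by
      constructor
      · intro h
        refine ⟨⟨?_, ?_⟩, fun σ hσ => (h hσ).2.2⟩
        · unfold pL
          rw [Subgroup.closure_le]
          rintro p ⟨s, hs, rfl⟩
          exact (h hs).1
        · unfold qL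
          rw [Subgroup.closure_le]
          rintro p ⟨s, hs, rfl⟩
          exact (h hs).2.1
      · rintro ⟨⟨h3, h4⟩, h5⟩ σ hσ
        exact ⟨h3 (Subgroup.subset_closure ⟨σ, hσ, rfl⟩), h4 (Subgroup.subset_closure ⟨σ, hσ, rfl⟩),
          h5 σ hσ⟩
    by_cases h3 : pL L ≤ P ∧ qL L ≤ Q
    · rw [if_pos h3]
      exact if_congr (h2.trans (and_iff_right h3)) rfl rfl
    · rw [if_neg h3, if_neg (fun h => h3 (h2.1 h).1)]
  rw [Finset.sum_congr rfl fun z _ => h1 z, Finset.sum_comm]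
  refine Finset.sum_congr rfl fun L _ => ?_
  by_cases h3 : pL L ≤ P ∧ qL L ≤ Q
  · rw [if_pos h3, Finset.sum_congr rfl fun z _ => if_pos h3, ← Finset.sum_filter,
      Finset.sum_const, nsmul_eq_mul, mul_comm]
    have h4 : (Finset.univ.filter fun z : XX g h => ∀ σ ∈ L, Cd g z.1.1 z.1.2.1 z.1.2.2 σ).card =
        NN Cd g h L := by
      unfold NN
      rw [Set.ncard_eq_toFinset_card']
      congr 1
      ext z
      simp
    rw [h4]
  · rw [if_neg h3, Finset.sum_congr rfl fun z _ => if_neg h3, Finset.sum_const_zero, mul_zero]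

end cond

/-! ### The weights -/

section wts

variable {V₀ G : Type} [CommGroup V₀] [Finite V₀] [Group G] [Finite G]
  {M : Ideal (integralClosure ℤ ℂ)} [M.IsMaximal]

theorem sup_top {ℓ : ℕ} (hℓ : ℓ.Prime) {E₀ : Subgroup (MulAut V₀)} (hFr : Fr ℓ V₀ E₀) {c : V₀}
    (hc : c ≠ 1) {P : Subgroup V₀} (hP : ¬ P ≤ Subgroup.zpowers c) :
    P ⊔ Subgroup.zpowers c = ⊤ := by
  have : Fact ℓ.Prime := ⟨hℓ⟩
  have ho : orderOf c = ℓ := orderOf_eq_prime (hFr.ex c) hc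
  have h1 : Nat.card (Subgroup.zpowers c) = ℓ := by rw [Nat.card_zpowers, ho]
  have h2 : Subgroup.zpowers c < P ⊔ Subgroup.zpowers c := by
    refine lt_of_le_of_ne le_sup_right fun h => hP ?_
    rw [h]
    exact le_sup_left
  have h3 : Nat.card (Subgroup.zpowers c) ∣ Nat.card (P ⊔ Subgroup.zpowers c : Subgroup V₀) :=
    Subgroup.card_dvd_of_le h2.le
  have h4 : Nat.card (P ⊔ Subgroup.zpowers c : Subgroup V₀) ∣ ℓ ^ 2 := by
    rw [← hFr.cd]
    exact Subgroup.card_subgroup_dvd_card _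
  obtain ⟨k, hk, hk2⟩ := (Nat.dvd_prime_pow hℓ).1 h4
  apply Subgroup.eq_top_of_card_eq
  rw [hFr.cd]
  have h5 : k = 2 := by
    have h6 : Nat.card (P ⊔ Subgroup.zpowers c : Subgroup V₀) ≠ ℓ := by
      intro h7
      have h8 := Subgroup.eq_of_le_of_card_ge h2.le (by rw [h7, h1])
      exact h2.ne h8
    interval_cases k
    · exfalso
      rw [hk2, pow_zero, h1] at h3
      exact hℓ.one_lt.ne' (Nat.dvd_one.1 h3)
    · exfalso
      rw [hk2, pow_one] at h6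
      exact h6 rfl
    · rfl
  rw [hk2, h5]

open Classical in
/-- the key lemma for one variable -/
theorem one_var {ℓ : ℕ} (hℓ : ℓ.Prime) {E₀ : Subgroup (MulAut V₀)} (hFr : Fr ℓ V₀ E₀)
    (B : Bk (FF M) V₀ G) [Fintype G] {c : V₀} (hc : c ≠ 1) (P : Subgroup V₀) (Y : G → ℂ)
    (hY : P ≤ Subgroup.zpowers c → ∀ z ∈ B.C (Subgroup.zpowers c), ∀ s, Y (z * s * z⁻¹) = Y s) :
    ∑ f : Bool, (if P ≤ frm c f then ∑ s, wt B c f s * Y s else 0) =
      (Nat.card (B.C (P ⊔ Subgroup.zpowers c)) : ℂ)⁻¹ *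
        ∑ s, bh B (P ⊔ Subgroup.zpowers c) s * Y s := by
  rw [Fintype.sum_bool]
  have ht : P ≤ frm c true := by
    show P ≤ (⊤ : Subgroup V₀)
    exact le_top
  rw [if_pos ht]
  have hwt : ∀ s, wt B c true s = (Nat.card (B.C ⊤) : ℂ)⁻¹ * bh B ⊤ s := fun s => rfl
  by_cases hP : P ≤ Subgroup.zpowers c
  · have hf : P ≤ frm c false := hP
    rw [if_pos hf, sup_eq_right.2 hP]
    have := Fintype.ofFinite (B.C (Subgroup.zpowers c))
    have hwf : ∀ s, wt B c false s = (Nat.card (B.C (Subgroup.zpowers c)) : ℂ)⁻¹ *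
        (bh B (Subgroup.zpowers c) s - (Nat.card (B.C ⊤) : ℂ)⁻¹ *
          ∑ z : B.C (Subgroup.zpowers c), bh B ⊤ ((z : G)⁻¹ * s * z)) := by
      intro s
      rw [← finsum_eq_sum_of_fintype]
      rfl
    have h1 : ∑ s, (∑ z : B.C (Subgroup.zpowers c), bh B ⊤ ((z : G)⁻¹ * s * z)) * Y s =
        Nat.card (B.C (Subgroup.zpowers c)) * ∑ s, bh B ⊤ s * Y s := by
      simp only [Finset.sum_mul]
      rw [Finset.sum_comm]
      have h2 : ∀ z : B.C (Subgroup.zpowers c), ∑ s, bh B ⊤ ((z : G)⁻¹ * s * z) * Y s =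
          ∑ s, bh B ⊤ s * Y s := by
        intro z
        rw [← Equiv.sum_comp (MulAut.conj (z : G)).toEquiv]
        refine Finset.sum_congr rfl fun s _ => ?_
        have e1 : (MulAut.conj (z : G)).toEquiv s = z * s * (z : G)⁻¹ := rfl
        rw [e1, hY hP z z.2]
        have e2 : (z : G)⁻¹ * (z * s * (z : G)⁻¹) * z = s := by group
        rw [e2]
      rw [Finset.sum_congr rfl fun z _ => h2 z, Finset.sum_const, nsmul_eq_mul, Finset.card_univ,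
        Nat.card_eq_fintype_card]
    have h3 : (Nat.card (B.C (Subgroup.zpowers c)) : ℂ) ≠ 0 := by
      exact_mod_cast Nat.card_pos.ne'
    have h4 : ∑ s, wt B c false s * Y s = (Nat.card (B.C (Subgroup.zpowers c)) : ℂ)⁻¹ *
        (∑ s, bh B (Subgroup.zpowers c) s * Y s) - (Nat.card (B.C ⊤) : ℂ)⁻¹ *
          ∑ s, bh B ⊤ s * Y s := by
      have h5 : ∀ s, wt B c false s * Y s = (Nat.card (B.C (Subgroup.zpowers c)) : ℂ)⁻¹ *
          (bh B (Subgroup.zpowers c) s * Y s) - (Nat.card (B.C (Subgroup.zpowers c)) : ℂ)⁻¹ *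
          (Nat.card (B.C ⊤) : ℂ)⁻¹ *
          ((∑ z : B.C (Subgroup.zpowers c), bh B ⊤ ((z : G)⁻¹ * s * z)) * Y s) := by
        intro s
        rw [hwf]
        ring
      rw [Finset.sum_congr rfl fun s _ => h5 s, Finset.sum_sub_distrib, ← Finset.mul_sum,
        ← Finset.mul_sum, h1]
      field_simp
    have h6 : ∑ s, wt B c true s * Y s = (Nat.card (B.C ⊤) : ℂ)⁻¹ * ∑ s, bh B ⊤ s * Y s := by
      rw [Finset.mul_sum]
      refine Finset.sum_congr rfl fun s _ => ?_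
      rw [hwt]
      ring
    rw [h4, h6]
    ring
  · have hf : ¬ P ≤ frm c false := hP
    rw [if_neg hf, add_zero, sup_top hℓ hFr hc hP, Finset.mul_sum]
    refine Finset.sum_congr rfl fun s _ => ?_
    rw [hwt]
    ring

open Classical in
/-- the two variables together -/
theorem two_var {ℓ : ℕ} (hℓ : ℓ.Prime) {E₀ : Subgroup (MulAut V₀)} (hFr : Fr ℓ V₀ E₀)
    (B : Bk (FF M) V₀ G) [Fintype G] {c d : V₀} (hc : c ≠ 1) (hd : d ≠ 1) (P Q : Subgroup V₀)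
    (Y : G → G → ℂ)
    (hY1 : P ≤ Subgroup.zpowers c → ∀ z ∈ B.C (Subgroup.zpowers c), ∀ s t,
      Y (z * s * z⁻¹) t = Y s t)
    (hY2 : Q ≤ Subgroup.zpowers d → ∀ z ∈ B.C (Subgroup.zpowers d), ∀ s t,
      Y s (z * t * z⁻¹) = Y s t) :
    ∑ f : Bool, ∑ f' : Bool, (if P ≤ frm c f ∧ Q ≤ frm d f' then
      ∑ s, ∑ t, wt B c f s * wt B d f' t * Y s t else 0) =
      ((Nat.card (B.C (P ⊔ Subgroup.zpowers c)) : ℂ) *
        Nat.card (B.C (Q ⊔ Subgroup.zpowers d)))⁻¹ *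
        ∑ s, ∑ t, bh B (P ⊔ Subgroup.zpowers c) s * bh B (Q ⊔ Subgroup.zpowers d) t * Y s t := by
  have h1 : ∀ s, ∑ f' : Bool, (if Q ≤ frm d f' then ∑ t, wt B d f' t * Y s t else 0) =
      (Nat.card (B.C (Q ⊔ Subgroup.zpowers d)) : ℂ)⁻¹ *
        ∑ t, bh B (Q ⊔ Subgroup.zpowers d) t * Y s t := fun s =>
    one_var hℓ hFr B hd Q (Y s) fun h z hz t => hY2 h z hz s t
  have h2 := one_var hℓ hFr B hc P (fun s => (Nat.card (B.C (Q ⊔ Subgroup.zpowers d)) : ℂ)⁻¹ *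
        ∑ t, bh B (Q ⊔ Subgroup.zpowers d) t * Y s t) (fun h z hz s => by
      show _ * _ = _ * _
      simp only [hY1 h z hz])
  have h3 : ∀ f : Bool, ∑ f' : Bool, (if P ≤ frm c f ∧ Q ≤ frm d f' then
      ∑ s, ∑ t, wt B c f s * wt B d f' t * Y s t else 0) =
      if P ≤ frm c f then ∑ s, wt B c f s * ((Nat.card (B.C (Q ⊔ Subgroup.zpowers d)) : ℂ)⁻¹ *
        ∑ t, bh B (Q ⊔ Subgroup.zpowers d) t * Y s t) else 0 := by
    intro f
    by_cases hP : P ≤ frm c f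
    · rw [if_pos hP]
      have h4 : ∀ s, wt B c f s * ((Nat.card (B.C (Q ⊔ Subgroup.zpowers d)) : ℂ)⁻¹ *
          ∑ t, bh B (Q ⊔ Subgroup.zpowers d) t * Y s t) =
          ∑ f' : Bool, wt B c f s * (if Q ≤ frm d f' then ∑ t, wt B d f' t * Y s t else 0) := by
        intro s
        rw [← h1 s, Finset.mul_sum]
      rw [Finset.sum_congr rfl fun s _ => h4 s, Finset.sum_comm]
      refine Finset.sum_congr rfl fun f' _ => ?_
      by_cases hQ : Q ≤ frm d f'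
      · rw [if_pos ⟨hP, hQ⟩]
        refine Finset.sum_congr rfl fun s _ => ?_
        rw [if_pos hQ, Finset.mul_sum]
        refine Finset.sum_congr rfl fun t _ => ?_
        ring
      · rw [if_neg fun h => hQ h.2]
        symm
        refine Finset.sum_eq_zero fun s _ => ?_
        rw [if_neg hQ, mul_zero]
    · rw [if_neg hP]
      refine Finset.sum_eq_zero fun f' _ => ?_
      rw [if_neg fun h => hP h.1]
  rw [Finset.sum_congr rfl fun f _ => h3 f, h2, Finset.mul_sum, Finset.mul_sum]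
  refine Finset.sum_congr rfl fun s _ => ?_
  rw [Finset.mul_sum, Finset.mul_sum, Finset.mul_sum, Finset.mul_sum]
  refine Finset.sum_congr rfl fun t _ => ?_
  rw [mul_inv]
  ring

theorem comm_of_mem (B : Bk (FF M) V₀ G) {W : Subgroup V₀} {z : G} (hz : z ∈ B.C W) {p : V₀}
    (hp : p ∈ W) : z * B.i p = B.i p * z := by
  have h1 := Subgroup.mem_centralizer_iff.1 hz (B.i p) (Subgroup.mem_map_of_mem _ hp)
  exact h1.symm

/-- the general form of the row -/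
theorem gen {ℓ : ℕ} (hℓ : ℓ.Prime) {E₀ : Subgroup (MulAut V₀)} (hFr : Fr ℓ V₀ E₀)
    (mbi : MbiStmt) (B : Bk (FF M) V₀ G) {n : ℕ} {c d : V₀} (hc : c ≠ 1) (hd : d ≠ 1)
    {Cd : G → G → G → G → SS n V₀ → Prop} (hC : Iv B.i Cd) (F : Set (SS n V₀) → ℚ) :
    ∑ f : Bool, ∑ f' : Bool, ∑ᶠ w : G × G, wt B c f w.1 * wt B d f' w.2 *
      ((∑ᶠ z : XX (B.i c * w.1) (B.i d * w.2), F {σ | σ.2.2.1 ∈ frm c f ∧ σ.2.2.2 ∈ frm d f' ∧
        Cd (B.i c * w.1) z.1.1 z.1.2.1 z.1.2.2 σ} : ℚ) : ℂ) =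
    ∑ᶠ L : Set (SS n V₀), (mob F L : ℂ) *
      (((Nat.card (B.C (pL L ⊔ Subgroup.zpowers c)) : ℂ) *
        Nat.card (B.C (qL L ⊔ Subgroup.zpowers d)))⁻¹ *
        ∑ᶠ w : G × G, bh B (pL L ⊔ Subgroup.zpowers c) w.1 *
          bh B (qL L ⊔ Subgroup.zpowers d) w.2 * NN Cd (B.i c * w.1) (B.i d * w.2) L) := by
  classical
  have := Fintype.ofFinite G
  have := Fintype.ofFinite (Set (SS n V₀))
  rw [finsum_eq_sum_of_fintype]
  simp only [finsum_eq_sum_of_fintype (α := G × G), sum_types mbi Cd]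
  have h1 : ∀ L : Set (SS n V₀), ∑ f : Bool, ∑ f' : Bool, (if pL L ≤ frm c f ∧ qL L ≤ frm d f' then
      ∑ s, ∑ t, wt B c f s * wt B d f' t * (NN Cd (B.i c * s) (B.i d * t) L : ℂ) else 0) =
      ((Nat.card (B.C (pL L ⊔ Subgroup.zpowers c)) : ℂ) *
        Nat.card (B.C (qL L ⊔ Subgroup.zpowers d)))⁻¹ *
        ∑ s, ∑ t, bh B (pL L ⊔ Subgroup.zpowers c) s * bh B (qL L ⊔ Subgroup.zpowers d) t *
          (NN Cd (B.i c * s) (B.i d * t) L : ℂ) := by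
    intro L
    refine two_var hℓ hFr B hc hd (pL L) (qL L) _ ?_ ?_
    · intro hP z hz s t
      have hcz := comm_of_mem B hz (Subgroup.mem_zpowers c)
      have e1 : B.i c * (z * s * z⁻¹) = z * (B.i c * s) * z⁻¹ := by
        rw [← mul_assoc, ← mul_assoc, ← hcz]
        group
      rw [e1, NN_one hC]
      intro σ hσ
      exact comm_of_mem B hz (hP (Subgroup.subset_closure ⟨σ, hσ, rfl⟩))
    · intro hQ z hz s t
      have hdz := comm_of_mem B hz (Subgroup.mem_zpowers d)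
      have e1 : B.i d * (z * t * z⁻¹) = z * (B.i d * t) * z⁻¹ := by
        rw [← mul_assoc, ← mul_assoc, ← hdz]
        group
      rw [e1, NN_two hC]
      intro σ hσ
      exact comm_of_mem B hz (hQ (Subgroup.subset_closure ⟨σ, hσ, rfl⟩))
  have h2 : ∀ f f' : Bool, ∑ w : G × G, wt B c f w.1 * wt B d f' w.2 *
      ((∑ L : Set (SS n V₀), mob F L * (if pL L ≤ frm c f ∧ qL L ≤ frm d f' then
        (NN Cd (B.i c * w.1) (B.i d * w.2) L : ℚ) else 0) : ℚ) : ℂ) =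
      ∑ L : Set (SS n V₀), (mob F L : ℂ) * (if pL L ≤ frm c f ∧ qL L ≤ frm d f' then
        ∑ s, ∑ t, wt B c f s * wt B d f' t * (NN Cd (B.i c * s) (B.i d * t) L : ℂ) else 0) := by
    intro f f'
    have e1 : ∀ w : G × G, wt B c f w.1 * wt B d f' w.2 *
      ((∑ L : Set (SS n V₀), mob F L * (if pL L ≤ frm c f ∧ qL L ≤ frm d f' then
        (NN Cd (B.i c * w.1) (B.i d * w.2) L : ℚ) else 0) : ℚ) : ℂ) =
      ∑ L : Set (SS n V₀), (mob F L : ℂ) * (if pL L ≤ frm c f ∧ qL L ≤ frm d f' then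
        wt B c f w.1 * wt B d f' w.2 * (NN Cd (B.i c * w.1) (B.i d * w.2) L : ℂ) else 0) := by
      intro w
      push_cast
      rw [Finset.mul_sum]
      refine Finset.sum_congr rfl fun L _ => ?_
      by_cases h : pL L ≤ frm c f ∧ qL L ≤ frm d f'
      · rw [if_pos h, if_pos h]
        push_cast
        ring
      · rw [if_neg h, if_neg h]
        push_cast
        ring
    rw [Finset.sum_congr rfl fun w _ => e1 w, Finset.sum_comm]
    refine Finset.sum_congr rfl fun L _ => ?_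
    rw [← Finset.mul_sum]
    congr 1
    by_cases h : pL L ≤ frm c f ∧ qL L ≤ frm d f'
    · rw [if_pos h, Finset.sum_congr rfl fun w _ => if_pos h, Fintype.sum_prod_type]
    · rw [if_neg h, Finset.sum_congr rfl fun w _ => if_neg h, Finset.sum_const_zero]
  simp only [h2]
  have h3 : ∀ f : Bool, ∑ f' : Bool, ∑ L : Set (SS n V₀), (mob F L : ℂ) *
      (if pL L ≤ frm c f ∧ qL L ≤ frm d f' then
        ∑ s, ∑ t, wt B c f s * wt B d f' t * (NN Cd (B.i c * s) (B.i d * t) L : ℂ) else 0) =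
      ∑ L : Set (SS n V₀), ∑ f' : Bool, (mob F L : ℂ) *
      (if pL L ≤ frm c f ∧ qL L ≤ frm d f' then
        ∑ s, ∑ t, wt B c f s * wt B d f' t * (NN Cd (B.i c * s) (B.i d * t) L : ℂ) else 0) :=
    fun f => Finset.sum_comm
  rw [Finset.sum_congr rfl fun f _ => h3 f, Finset.sum_comm]
  refine Finset.sum_congr rfl fun L _ => ?_
  have h4 : ∑ f : Bool, ∑ f' : Bool, (mob F L : ℂ) *
      (if pL L ≤ frm c f ∧ qL L ≤ frm d f' then
        ∑ s, ∑ t, wt B c f s * wt B d f' t * (NN Cd (B.i c * s) (B.i d * t) L : ℂ) else 0) =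
      (mob F L : ℂ) * ∑ f : Bool, ∑ f' : Bool, (if pL L ≤ frm c f ∧ qL L ≤ frm d f' then
        ∑ s, ∑ t, wt B c f s * wt B d f' t * (NN Cd (B.i c * s) (B.i d * t) L : ℂ) else 0) := by
    rw [Finset.mul_sum]
    refine Finset.sum_congr rfl fun f _ => ?_
    rw [Finset.mul_sum]
  rw [h4, h1 L, Fintype.sum_prod_type]

end wts

/-- row LBS -/
theorem lbs (mbi : MbiStmt) : LbsStmt := by
  intro ℓ hfact M _ _ V₀ G _ _ _ _ E₀ hFr B _ n m c d hc hd F₁₃ F₁₂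
  classical
  have hℓ : ℓ.Prime := Fact.out
  have h13 := gen hℓ hFr mbi B hc hd (c13_iv (n := n) m B.i) F₁₃
  have h12 := gen hℓ hFr mbi B hc hd (c12_iv (n := n) m B.i) F₁₂
  have hsum : ∑ᶠ L : Set (SS n V₀), ((mob F₁₃ L : ℂ) * W13 B m c d L +
      (mob F₁₂ L : ℂ) * W12 B m c d L) =
      ∑ᶠ L : Set (SS n V₀), (mob F₁₃ L : ℂ) * W13 B m c d L +
      ∑ᶠ L : Set (SS n V₀), (mob F₁₂ L : ℂ) * W12 B m c d L :=
    finsum_add_distrib (Set.toFinite _) (Set.toFinite _)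
  rw [hsum]
  refine Eq.trans ?_ (congrArg₂ (· + ·) h13 h12)
  unfold TS
  show _ = _ + _
  rw [← Finset.sum_add_distrib]
  refine Finset.sum_congr rfl fun f _ => ?_
  rw [← Finset.sum_add_distrib]
  refine Finset.sum_congr rfl fun f' _ => ?_
  rw [← finsum_add_distrib (Set.toFinite _) (Set.toFinite _)]
  refine finsum_congr fun w => ?_
  rw [← mul_add]
  congr 1
  rw [← Rat.cast_add]
  congr 1
  exact finsum_add_distrib (Set.toFinite _) (Set.toFinite _)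

end Pool.Agent.PP.SO.H62
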