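import Pool.Agent.ASO.StmtsL

/-!
# Squad ASO, row RSL: residues of rational numbers with denominator prime to `ℓ`
-/

open scoped BigOperators

noncomputable section

namespace Pool.Agent.PP.SO.H62

open Pool.Agent.PP.SO

theorem rsl_den {ℓ : ℕ} [Fact ℓ.Prime] {x : ℚ} (hx : x ∈ SOR.Rl ℓ) : (x.den : ZMod ℓ) ≠ 0 := by
  intro h
  exact hx ((ZMod.natCast_eq_zero_iff _ _).1 h)

theorem rsl_nat (ℓ : ℕ) [Fact ℓ.Prime] (n : ℕ) : (n : ℚ) ∈ SOR.Rl ℓ := by
  change ¬ ℓ ∣ (n : ℚ).den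
  rw [Rat.den_natCast]
  have hp : Nat.Prime ℓ := Fact.out
  exact hp.one_lt.ne' ∘ Nat.dvd_one.1

theorem rsl : RslStmt := by
  intro ℓ _
  have hadd : ∀ x ∈ SOR.Rl ℓ, ∀ y ∈ SOR.Rl ℓ, ((x + y : ℚ) : ZMod ℓ) = (x : ZMod ℓ) + (y : ZMod ℓ) :=
    fun x hx y hy => Rat.cast_add_of_ne_zero (rsl_den hx) (rsl_den hy)
  have hmul : ∀ x ∈ SOR.Rl ℓ, ∀ y ∈ SOR.Rl ℓ, ((x * y : ℚ) : ZMod ℓ) = (x : ZMod ℓ) * (y : ZMod ℓ) :=
    fun x hx y hy => Rat.cast_mul_of_ne_zero (rsl_den hx) (rsl_den hy)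
  refine ⟨fun x hx y hy => ⟨hadd x hx y hy, hmul x hx y hy⟩, ?_, ?_⟩
  · intro x hx
    constructor
    · intro h
      rw [Rat.cast_def, div_eq_zero_iff] at h
      rcases h with h | h
      · obtain ⟨k, hk⟩ := (ZMod.intCast_zmod_eq_zero_iff_dvd _ _).1 h
        refine ⟨(k : ℚ) / ((x.den : ℤ) : ℚ), ?_, ?_⟩
        · change ¬ ℓ ∣ ((k : ℚ) / ((x.den : ℤ) : ℚ)).den
          intro hd
          have h1 : (((k : ℚ) / ((x.den : ℤ) : ℚ)).den : ℤ) ∣ (x.den : ℤ) := by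
            rw [← Rat.divInt_eq_div]
            exact Rat.den_dvd k x.den
          exact hx (hd.trans (Int.natCast_dvd_natCast.1 h1))
        · have hx0 : (x.den : ℚ) ≠ 0 := by exact_mod_cast x.den_nz
          have h2 : (x.num : ℚ) = (ℓ : ℚ) * k := by
            rw [hk]
            push_cast
            ring
          rw [Int.cast_natCast, ← mul_div_assoc, ← h2]
          exact (Rat.num_div_den x).symm
      · exact absurd h (rsl_den hx)
    · rintro ⟨q, hq, rfl⟩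
      rw [hmul _ (rsl_nat ℓ ℓ) _ hq, Rat.cast_natCast, ZMod.natCast_self, zero_mul]
  · intro I s f
    induction s using Finset.cons_induction with
    | empty =>
      intro _
      refine ⟨?_, ?_⟩
      · rw [Finset.sum_empty]
        exact Subring.zero_mem _
      · rw [Finset.sum_empty, Finset.sum_empty, Rat.cast_zero]
    | cons i s hi ih =>
      intro hf
      obtain ⟨h1, h2⟩ := ih fun j hj => hf j (Finset.mem_cons_of_mem hj)
      have h3 := hf i (Finset.mem_cons_self i s)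
      rw [Finset.sum_cons, Finset.sum_cons]
      exact ⟨Subring.add_mem _ h3 h1, by rw [hadd _ h3 _ h1, h2]⟩

end Pool.Agent.PP.SO.H62
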